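import Pool.Agent.H96.CP.Stm4
import Pool.Agent.H53.CP.Cvx

/-!
Project CP: convexity of the free energy (`S_cvxf`).
-/

set_option autoImplicit false

open Real Set MeasureTheory Metric Filter Topology
open scoped ENNReal Nat

namespace Pool.Agent.H23.CP

/-- A midpoint convex antitone function is convex. -/
theorem convexOn_of_midpoint {s : Set ℝ} (hs : Convex ℝ s) (f : ℝ → ℝ)
    (hmid : ∀ x ∈ s, ∀ y ∈ s, x < y → f ((x + y) / 2) ≤ (f x + f y) / 2)
    (hanti : ∀ x ∈ s, ∀ y ∈ s, x < y → f y ≤ f x) : ConvexOn ℝ s f := by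
  refine LinearOrder.convexOn_of_lt hs fun x hx y hy hxy a b ha hb hab => ?_
  have hfxy := hanti x hx y hy hxy
  have hmem : ∀ t : ℝ, 0 ≤ t → t ≤ 1 → x + t * (y - x) ∈ s := by
    intro t h0 h1
    have := hs hx hy (show 0 ≤ 1 - t by linarith) h0 (by ring)
    simp only [smul_eq_mul] at this
    rw [show x + t * (y - x) = (1 - t) * x + t * y by ring]
    exact this
  have key : ∀ n : ℕ, ∀ t : ℝ, 0 ≤ t → t ≤ 1 →
      f (x + t * (y - x)) - ((1 - t) * f x + t * f y) ≤ (f x - f y) / 2 ^ n := by
    intro n
    induction n with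
    | zero =>
      intro t h0 h1
      have h2 : f (x + t * (y - x)) ≤ f x := by
        rcases h0.lt_or_eq with h | h
        · exact hanti x hx _ (hmem t h0 h1) (by nlinarith)
        · rw [← h]
          simp
      rw [pow_zero, div_one]
      nlinarith
    | succ n ih =>
      intro t h0 h1
      have hD : 0 ≤ (f x - f y) / 2 ^ (n + 1) := div_nonneg (by linarith) (by positivity)
      have e2 : (f x - f y) / 2 ^ (n + 1) = ((f x - f y) / 2 ^ n) / 2 := by
        rw [pow_succ, div_div]
      rcases le_or_gt t (1 / 2) with h | h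
      · rcases h0.lt_or_eq with h3 | h3
        · have h4 := ih (2 * t) (by linarith) (by linarith)
          have h5 := hmid x hx _ (hmem (2 * t) (by linarith) (by linarith))
            (by nlinarith : x < x + 2 * t * (y - x))
          rw [show (x + (x + 2 * t * (y - x))) / 2 = x + t * (y - x) by ring] at h5
          rw [e2]
          linarith
        · rw [← h3] at *
          simp only [zero_mul, add_zero, sub_zero, one_mul]
          linarith
      · rcases h1.lt_or_eq with h3 | h3
        · have h4 := ih (2 * t - 1) (by linarith) (by linarith)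
          have h5 := hmid _ (hmem (2 * t - 1) (by linarith) (by linarith)) y hy
            (by nlinarith : x + (2 * t - 1) * (y - x) < y)
          rw [show ((x + (2 * t - 1) * (y - x)) + y) / 2 = x + t * (y - x) by ring] at h5
          rw [e2]
          linarith
        · rw [h3]
          rw [show x + 1 * (y - x) = y by ring]
          linarith
  have hlim : Tendsto (fun n : ℕ => (f x - f y) / 2 ^ n) atTop (𝓝 0) := by
    have h1 : Tendsto (fun n : ℕ => ((1 : ℝ) / 2) ^ n) atTop (𝓝 0) :=
      tendsto_pow_atTop_nhds_zero_of_lt_one (by norm_num) (by norm_num)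
    have h2 := h1.const_mul (f x - f y)
    rw [mul_zero] at h2
    refine h2.congr fun n => ?_
    rw [div_pow, one_pow]
    ring
  have hb1 : b ≤ 1 := by linarith
  have h := ge_of_tendsto' hlim fun n => key n b hb.le hb1
  have ea : a = 1 - b := by linarith
  simp only [smul_eq_mul]
  rw [ea, show (1 - b) * x + b * y = x + b * (y - x) by ring]
  linarith

theorem t_cvxf : Pool.Agent.H96.CP.S_cvxf := by
  intro a δ f ha hδ hf
  have hv0 : 0 < 2 * √3 * a ^ 2 := by positivity
  refine convexOn_of_midpoint (convex_Ioo _ _) f ?_ ?_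
  · intro x hx y hy hxy
    have hm : (x + y) / 2 ∈ Ioo (2 * √3 * a ^ 2) (2 * √3 * a ^ 2 + δ) := by
      constructor <;> [linarith [hx.1, hy.1]; linarith [hx.2, hy.2]]
    exact Pool.Agent.H53.CP.cvx a x y (f x) (f y) (f ((x + y) / 2)) ha hx.1 hxy (hf x hx) (hf y hy)
      (hf _ hm)
  · intro x hx y hy hxy
    have h1 := Pool.Agent.H96.HD.side_ineq (hv0.trans hx.1) hxy (hf x hx) (hf y hy)
    have h2 : √x ≤ √y := Real.sqrt_le_sqrt hxy.le
    have h3 : Real.exp (-(f x + 1) / 2) ≤ Real.exp (-(f y + 1) / 2) := by linarith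
    rw [Real.exp_le_exp] at h3
    linarith

end Pool.Agent.H23.CP
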