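import Pool.Agent.H23.CP.GridA

/-!
Project CP, grid bound (`S_grid`).
-/

set_option autoImplicit false

open Real Set MeasureTheory Metric Filter Topology
open scoped ENNReal Nat ComplexConjugate

namespace Pool.Agent.H23.CP

open Pool.Agent.H96.CP

section

variable (n m s₁ s₂ : ℕ)

/-- the blocks -/
abbrev Al := {t : ℕ × ℕ // t ∈ Tp n m s₁ s₂}

/-- the other sites -/
abbrev Ga := {q : Fin (n + 1) × Fin (n + 1) // ¬ (inn n m s₁ q.1 ∧ inn n m s₂ q.2)}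

noncomputable instance instGa : Fintype (Ga n m s₁ s₂) := Fintype.ofFinite _

variable {n m s₁ s₂}

theorem mem_Tp {t : ℕ × ℕ} (ht : t ∈ Tp n m s₁ s₂) :
    t.1 % (m + 1) = s₁ ∧ t.2 % (m + 1) = s₂ ∧ t.1 + (m + 1) ≤ n ∧ t.2 + (m + 1) ≤ n := by
  have := (Finset.mem_filter.1 ht).2
  exact this

/-- the sites -/
def site : (Al n m s₁ s₂ × (Fin m × Fin m)) ⊕ Ga n m s₁ s₂ → Fin (n + 1) × Fin (n + 1)
  | Sum.inl (t, p) => (⟨t.1.1 + p.1 + 1, by
      have := mem_Tp t.2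
      have := p.1.2
      omega⟩, ⟨t.1.2 + p.2 + 1, by
      have := mem_Tp t.2
      have := p.2.2
      omega⟩)
  | Sum.inr q => q.1

theorem inn_inl (t : Al n m s₁ s₂) (p : Fin m × Fin m) :
    inn n m s₁ (t.1.1 + p.1 + 1) ∧ inn n m s₂ (t.1.2 + p.2 + 1) := by
  have h := mem_Tp t.2
  have h1 := p.1.2
  have h2 := p.2.2
  exact ⟨⟨t.1.1, h.1, h.2.2.1, by omega, by omega⟩, ⟨t.1.2, h.2.1, h.2.2.2, by omega, by omega⟩⟩

theorem eq_of_mod {R t t' a a' s : ℕ} (h : t % R = s) (h' : t' % R = s) (ha : a < R) (ha' : a' < R)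
    (he : t + a = t' + a') : t = t' := by
  have h1 : t ≡ t' [MOD R] := by
    unfold Nat.ModEq
    omega
  have h2 : t + a ≡ t' + a' [MOD R] := by rw [he]
  have h3 : a ≡ a' [MOD R] := Nat.ModEq.add_left_cancel h1 h2
  have := Nat.ModEq.eq_of_lt_of_lt h3 ha ha'
  omega

theorem site_bij : Function.Bijective (site (n := n) (m := m) (s₁ := s₁) (s₂ := s₂)) := by
  constructor
  · rintro (⟨t, p⟩ | q) (⟨t', p'⟩ | q') h
    · simp only [site, Prod.mk.injEq, Fin.mk.injEq] at h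
      have h1 := mem_Tp t.2
      have h2 := mem_Tp t'.2
      have e1 := p.1.2
      have e2 := p.2.2
      have e3 := p'.1.2
      have e4 := p'.2.2
      have k1 : t.1.1 = t'.1.1 :=
        eq_of_mod (R := m + 1) (a := p.1) (a' := p'.1) h1.1 h2.1 (by omega) (by omega) (by omega)
      have k2 : t.1.2 = t'.1.2 :=
        eq_of_mod (R := m + 1) (a := p.2) (a' := p'.2) h1.2.1 h2.2.1 (by omega) (by omega) (by omega)
      have k3 : t = t' := Subtype.ext (Prod.ext k1 k2)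
      have k4 : p = p' := Prod.ext (Fin.ext (by omega)) (Fin.ext (by omega))
      rw [k3, k4]
    · exfalso
      have h1 := inn_inl t p
      apply q'.2
      rw [← show site (Sum.inl (t, p)) = q'.1 from h]
      exact h1
    · exfalso
      have h1 := inn_inl t' p'
      apply q.2
      rw [show q.1 = site (Sum.inl (t', p')) from h]
      exact h1
    · have : q = q' := Subtype.ext h
      rw [this]
  · intro q
    by_cases hq : inn n m s₁ q.1 ∧ inn n m s₂ q.2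
    · obtain ⟨⟨t1, a1, a2, a3, a4⟩, ⟨t2, b1, b2, b3, b4⟩⟩ := hq
      have ht : (t1, t2) ∈ Tp n m s₁ s₂ := by
        refine Finset.mem_filter.2 ⟨?_, a1, b1, a2, b2⟩
        simp only [Finset.mem_product, Finset.mem_range]
        omega
      refine ⟨Sum.inl (⟨(t1, t2), ht⟩, (⟨q.1 - t1 - 1, by omega⟩, ⟨q.2 - t2 - 1, by omega⟩)), ?_⟩
      refine Prod.ext (Fin.ext ?_) (Fin.ext ?_)
      · show t1 + (q.1 - t1 - 1) + 1 = (q.1 : ℕ)
        omega
      · show t2 + (q.2 - t2 - 1) + 1 = (q.2 : ℕ)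
        omega
    · exact ⟨Sum.inr ⟨q, hq⟩, rfl⟩

variable (n m s₁ s₂)

/-- the decomposition of the sites -/
noncomputable def ee : (Al n m s₁ s₂ × (Fin m × Fin m)) ⊕ Ga n m s₁ s₂ ≃
    Fin (n + 1) × Fin (n + 1) := Equiv.ofBijective site site_bij

open Classical in
/-- extension by zero of the values at the sites outside the interiors of the blocks -/
noncomputable def E (g : Ga n m s₁ s₂ → ℂ) (i j : ℕ) : ℂ :=
  if h : (i < n + 1 ∧ j < n + 1) ∧ ¬ (inn n m s₁ i ∧ inn n m s₂ j) then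
    g ⟨(⟨i, h.1.1⟩, ⟨j, h.1.2⟩), h.2⟩ else 0

variable {n m s₁ s₂}

theorem comb_inr (g : Ga n m s₁ s₂ → ℂ) (w : Al n m s₁ s₂ → Fin m × Fin m → ℂ)
    (q : Ga n m s₁ s₂) : comb (ee n m s₁ s₂) g w q.1 = g q := by
  have : q.1 = ee n m s₁ s₂ (Sum.inr q) := rfl
  rw [this]
  simp [comb]

theorem comb_inl (g : Ga n m s₁ s₂ → ℂ) (w : Al n m s₁ s₂ → Fin m × Fin m → ℂ)
    (t : Al n m s₁ s₂) (p : Fin m × Fin m) :
    comb (ee n m s₁ s₂) g w (site (Sum.inl (t, p))) = w t p := by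
  have : site (Sum.inl (t, p)) = ee n m s₁ s₂ (Sum.inl (t, p)) := rfl
  rw [this]
  simp [comb]

theorem ext_eq_E (g : Ga n m s₁ s₂ → ℂ) (w : Al n m s₁ s₂ → Fin m × Fin m → ℂ) {i j : ℕ}
    (hi : i ≤ n) (hj : j ≤ n) (h : ¬ (inn n m s₁ i ∧ inn n m s₂ j)) :
    ext n (comb (ee n m s₁ s₂) g w) i j = E n m s₁ s₂ g i j := by
  unfold Pool.Agent.H96.CP.ext E
  rw [dif_pos ⟨hi, hj⟩, dif_pos ⟨⟨by omega, by omega⟩, h⟩]
  exact comb_inr g w ⟨(⟨i, _⟩, ⟨j, _⟩), h⟩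

theorem E_add (g g' : Ga n m s₁ s₂ → ℂ) (i j : ℕ) :
    E n m s₁ s₂ (g + g') i j = E n m s₁ s₂ g i j + E n m s₁ s₂ g' i j := by
  unfold E
  split_ifs <;> simp

theorem E_smul (c : ℝ) (g : Ga n m s₁ s₂ → ℂ) (i j : ℕ) :
    E n m s₁ s₂ (c • g) i j = c • E n m s₁ s₂ g i j := by
  unfold E
  split_ifs <;> simp

theorem E_congr {g g' : Ga n m s₁ s₂ → ℂ} {N : ℕ}
    (h : ∀ k : Ga n m s₁ s₂, (k.1.1 : ℕ) + k.1.2 < N → g k = g' k) {i j : ℕ} (hij : i + j < N) :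
    E n m s₁ s₂ g i j = E n m s₁ s₂ g' i j := by
  unfold E
  split_ifs with hd
  · exact h _ hij
  · rfl

/-- the roots -/
def root (k : Ga n m s₁ s₂) : Prop :=
  (k.1.1 : ℕ) ≤ 1 ∨ (k.1.2 : ℕ) ≤ 1 ∨ (k.1.1 : ℕ) = n ∨ (k.1.2 : ℕ) = n

variable (n m s₁ s₂)

open Classical in
/-- the prediction -/
noncomputable def pm : (Ga n m s₁ s₂ → ℂ) →ₗ[ℝ] (Ga n m s₁ s₂ → ℂ) where
  toFun g k := if root k then 0 else
    if inn n m s₂ k.1.2 then 2 * E n m s₁ s₂ g k.1.1 (k.1.2 - 1) - E n m s₁ s₂ g k.1.1 (k.1.2 - 2)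
    else 2 * E n m s₁ s₂ g (k.1.1 - 1) k.1.2 - E n m s₁ s₂ g (k.1.1 - 2) k.1.2
  map_add' g g' := by
    funext k
    simp only [E_add, Pi.add_apply]
    split_ifs <;> ring
  map_smul' c g := by
    funext k
    simp only [E_smul, Pi.smul_apply, RingHom.id_apply, Complex.real_smul]
    split_ifs <;> ring

variable {n m s₁ s₂}

theorem pm_apply_root (g : Ga n m s₁ s₂ → ℂ) {k : Ga n m s₁ s₂} (hk : root k) :
    pm n m s₁ s₂ g k = 0 := by
  simp only [pm, LinearMap.coe_mk, AddHom.coe_mk, if_pos hk]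

theorem pm_apply_v (g : Ga n m s₁ s₂ → ℂ) {k : Ga n m s₁ s₂} (hk : ¬ root k)
    (h : inn n m s₂ k.1.2) : pm n m s₁ s₂ g k =
      2 * E n m s₁ s₂ g k.1.1 (k.1.2 - 1) - E n m s₁ s₂ g k.1.1 (k.1.2 - 2) := by
  simp only [pm, LinearMap.coe_mk, AddHom.coe_mk, if_neg hk, if_pos h]

theorem pm_apply_h (g : Ga n m s₁ s₂ → ℂ) {k : Ga n m s₁ s₂} (hk : ¬ root k)
    (h : ¬ inn n m s₂ k.1.2) : pm n m s₁ s₂ g k =
      2 * E n m s₁ s₂ g (k.1.1 - 1) k.1.2 - E n m s₁ s₂ g (k.1.1 - 2) k.1.2 := by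
  simp only [pm, LinearMap.coe_mk, AddHom.coe_mk, if_neg hk, if_neg h]

theorem pm_rank (i : Ga n m s₁ s₂) (x y : Ga n m s₁ s₂ → ℂ)
    (h : ∀ j : Ga n m s₁ s₂, (j.1.1 : ℕ) + j.1.2 < (i.1.1 : ℕ) + i.1.2 → x j = y j) :
    pm n m s₁ s₂ x i = pm n m s₁ s₂ y i := by
  by_cases hi : root i
  · rw [pm_apply_root _ hi, pm_apply_root _ hi]
  · have h2 : 2 ≤ (i.1.1 : ℕ) ∧ 2 ≤ (i.1.2 : ℕ) := by
      unfold root at hi
      omega
    by_cases h3 : inn n m s₂ i.1.2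
    · rw [pm_apply_v _ hi h3, pm_apply_v _ hi h3, E_congr h (by omega), E_congr h (by omega)]
    · rw [pm_apply_h _ hi h3, pm_apply_h _ hi h3, E_congr h (by omega), E_congr h (by omega)]

/-! ## The blocks -/

theorem glue_self (g : Ga n m s₁ s₂ → ℂ) (w : Al n m s₁ s₂ → Fin m × Fin m → ℂ)
    (t : Al n m s₁ s₂) :
    glue m (sh (ext n (comb (ee n m s₁ s₂) g w)) t.1) (w t) =
      sh (ext n (comb (ee n m s₁ s₂) g w)) t.1 := by
  funext i j
  unfold glue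
  split_ifs with h
  · unfold sh Pool.Agent.H96.CP.ext
    have ht := mem_Tp t.2
    rw [dif_pos ⟨by omega, by omega⟩]
    have := comb_inl g w t (⟨i - 1, by omega⟩, ⟨j - 1, by omega⟩)
    rw [← this]
    congr 1
    refine Prod.ext (Fin.ext ?_) (Fin.ext ?_)
    · show t.1.1 + (i - 1) + 1 = t.1.1 + i
      omega
    · show t.1.2 + (j - 1) + 1 = t.1.2 + j
      omega
  · rfl

theorem Pos_congr {N : ℕ} {u v : ℕ → ℕ → ℂ} (h : ∀ i j, i ≤ N → j ≤ N → u i j = v i j) :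
    Pos N u ↔ Pos N v := by
  unfold Pos D0 D1 D2
  refine and_congr ?_ (and_congr ?_ ?_)
  · refine forall_congr' fun i => forall_congr' fun j => forall_congr' fun h1 =>
      forall_congr' fun h2 => ?_
    rw [h _ _ (by omega) (by omega), h _ _ (by omega) (by omega)]
  · refine forall_congr' fun i => forall_congr' fun j => forall_congr' fun h1 =>
      forall_congr' fun h2 => ?_
    rw [h _ _ (by omega) (by omega), h _ _ (by omega) (by omega)]
  · refine forall_congr' fun i => forall_congr' fun j => forall_congr' fun h1 =>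
      forall_congr' fun h2 => ?_
    rw [h _ _ (by omega) (by omega), h _ _ (by omega) (by omega)]

theorem Kb_indep (g : Ga n m s₁ s₂ → ℂ) (w w' : Al n m s₁ s₂ → Fin m × Fin m → ℂ)
    {t : ℕ × ℕ} (ht : t ∈ Tp n m s₁ s₂) :
    Kb m (sh (ext n (comb (ee n m s₁ s₂) g w)) t) =
      Kb m (sh (ext n (comb (ee n m s₁ s₂) g w')) t) := by
  ext v
  refine Pos_congr fun i j hi hj => ?_
  unfold glue
  split_ifs with h
  · rfl
  · unfold sh
    have h1 := mem_Tp ht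
    have h2 : ¬ (inn n m s₁ (t.1 + i) ∧ inn n m s₂ (t.2 + j)) := by
      rintro ⟨c1, c2⟩
      apply h
      have d1 := inn_ne c1
      have d2 := inn_ne c2
      have f1 : i ≠ 0 := by
        rintro rfl
        exact d1 h1.1
      have f2 : i ≠ m + 1 := by
        rintro rfl
        rw [Nat.add_mod_right] at d1
        exact d1 h1.1
      have f3 : j ≠ 0 := by
        rintro rfl
        exact d2 h1.2.1
      have f4 : j ≠ m + 1 := by
        rintro rfl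
        rw [Nat.add_mod_right] at d2
        exact d2 h1.2.1
      omega
    rw [ext_eq_E g w (by omega) (by omega) h2, ext_eq_E g w' (by omega) (by omega) h2]

theorem Pos_sh {u : ℕ → ℕ → ℂ} (hu : Pos n u) {t : ℕ × ℕ} (h1 : t.1 + (m + 1) ≤ n)
    (h2 : t.2 + (m + 1) ≤ n) : Pos (m + 1) (sh u t) := by
  refine ⟨fun i j hi hj => ?_, fun i j hi hj => ?_, fun i j hi hj => ?_⟩
  · exact hu.1 (t.1 + i) (t.2 + j) (by omega) (by omega)
  · exact hu.2.1 (t.1 + i) (t.2 + j) (by omega) (by omega)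
  · exact hu.2.2 (t.1 + i) (t.2 + j) (by omega) (by omega)

/-! ## The errors -/

theorem err_root {r : ℝ} (g : Ga n m s₁ s₂ → ℂ) (w : Al n m s₁ s₂ → Fin m × Fin m → ℂ)
    (hu : comb (ee n m s₁ s₂) g w ∈ U n r) {k : Ga n m s₁ s₂} (hk : root k) :
    ‖(g - pm n m s₁ s₂ g) k‖ ≤ r := by
  rw [Pi.sub_apply, pm_apply_root g hk, sub_zero, ← comb_inr g w k]
  exact hu.2 _

open Classical in
theorem err_sum {r : ℝ} (g : Ga n m s₁ s₂ → ℂ) (w : Al n m s₁ s₂ → Fin m × Fin m → ℂ)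
    (hu : comb (ee n m s₁ s₂) g w ∈ U n r) :
    ∑ k ∈ Finset.univ.filter (fun k : Ga n m s₁ s₂ => ¬ root k), ‖(g - pm n m s₁ s₂ g) k‖ ≤
      48 * A n (ext n (comb (ee n m s₁ s₂) g w)) := by
  set u := ext n (comb (ee n m s₁ s₂) g w) with hudef
  have hP : Pos n u := hu.1
  rw [← Finset.sum_filter_add_sum_filter_not _ (fun k : Ga n m s₁ s₂ => inn n m s₂ k.1.2)]
  set Sv := (Finset.univ.filter (fun k : Ga n m s₁ s₂ => ¬ root k)).filter
    (fun k : Ga n m s₁ s₂ => inn n m s₂ k.1.2) with hSv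
  set Sh := (Finset.univ.filter (fun k : Ga n m s₁ s₂ => ¬ root k)).filter
    (fun k : Ga n m s₁ s₂ => ¬ inn n m s₂ k.1.2) with hSh
  have mv : ∀ k ∈ Sv, ¬ root k ∧ inn n m s₂ k.1.2 := by
    intro k hk
    rw [hSv, Finset.mem_filter, Finset.mem_filter] at hk
    exact ⟨hk.1.2, hk.2⟩
  have mh : ∀ k ∈ Sh, ¬ root k ∧ ¬ inn n m s₂ k.1.2 := by
    intro k hk
    rw [hSh, Finset.mem_filter, Finset.mem_filter] at hk
    exact ⟨hk.1.2, hk.2⟩
  have rng : ∀ k : Ga n m s₁ s₂, ¬ root k → (2 ≤ (k.1.1 : ℕ) ∧ (k.1.1 : ℕ) + 1 ≤ n) ∧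
      2 ≤ (k.1.2 : ℕ) ∧ (k.1.2 : ℕ) + 1 ≤ n := by
    intro k hk
    have h1 := k.1.1.2
    have h2 := k.1.2.2
    unfold root at hk
    omega
  have hv : ∀ k ∈ Sv, ‖(g - pm n m s₁ s₂ g) k‖ ≤ 8 * (loc n u k.1.1 (k.1.2 - 1) +
      loc n u k.1.1 (k.1.2 - 2) + loc n u (k.1.1 + 1) (k.1.2 - 2)) := by
    intro k hk
    obtain ⟨hr, hin⟩ := mv k hk
    obtain ⟨⟨a1, a2⟩, a3, a4⟩ := rng k hr
    have hnx : ¬ inn n m s₁ k.1.1 := fun hc => k.2 ⟨hc, hin⟩
    rw [Pi.sub_apply, pm_apply_v g hr hin, ← comb_inr g w k]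
    rw [← ext_eq_E g w (by omega) (by omega) (fun hc => hnx hc.1),
      ← ext_eq_E g w (by omega) (by omega) (fun hc => hnx hc.1)]
    have h0 : comb (ee n m s₁ s₂) g w k.1 = u k.1.1 k.1.2 := by
      rw [hudef]
      unfold Pool.Agent.H96.CP.ext
      rw [dif_pos ⟨by omega, by omega⟩]
    rw [h0]
    have hj : (k.1.2 : ℕ) = ((k.1.2 : ℕ) - 2) + 2 := by omega
    have hj' : (k.1.2 : ℕ) - 1 = ((k.1.2 : ℕ) - 2) + 1 := by omega
    have := ver hP (i := (k.1.1 : ℕ)) (j := (k.1.2 : ℕ) - 2) (by omega) (by omega)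
    rw [← hj, ← hj'] at this
    exact this
  have hh : ∀ k ∈ Sh, ‖(g - pm n m s₁ s₂ g) k‖ ≤ 8 * (loc n u (k.1.1 - 1) k.1.2 +
      loc n u (k.1.1 - 2) k.1.2 + loc n u (k.1.1 - 2) (k.1.2 + 1)) := by
    intro k hk
    obtain ⟨hr, hin⟩ := mh k hk
    obtain ⟨⟨a1, a2⟩, a3, a4⟩ := rng k hr
    rw [Pi.sub_apply, pm_apply_h g hr hin, ← comb_inr g w k]
    rw [← ext_eq_E g w (by omega) (by omega) (fun hc => hin hc.2),
      ← ext_eq_E g w (by omega) (by omega) (fun hc => hin hc.2)]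
    have h0 : comb (ee n m s₁ s₂) g w k.1 = u k.1.1 k.1.2 := by
      rw [hudef]
      unfold Pool.Agent.H96.CP.ext
      rw [dif_pos ⟨by omega, by omega⟩]
    rw [h0]
    have hj : (k.1.1 : ℕ) = ((k.1.1 : ℕ) - 2) + 2 := by omega
    have hj' : (k.1.1 : ℕ) - 1 = ((k.1.1 : ℕ) - 2) + 1 := by omega
    have := hor hP (i := (k.1.1 : ℕ) - 2) (j := (k.1.2 : ℕ)) (by omega) (by omega)
    rw [← hj, ← hj'] at this
    exact this
  have inj : ∀ (S : Finset (Ga n m s₁ s₂)) (f : Ga n m s₁ s₂ → ℕ × ℕ),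
      (∀ k ∈ S, ∀ k' ∈ S, f k = f k' → (k.1.1 : ℕ) = k'.1.1 ∧ (k.1.2 : ℕ) = k'.1.2) →
      Set.InjOn f S := by
    intro S f hf k hk k' hk' he
    obtain ⟨h1, h2⟩ := hf k hk k' hk' he
    exact Subtype.ext (Prod.ext (Fin.ext h1) (Fin.ext h2))
  have key : ∀ (S : Finset (Ga n m s₁ s₂)) (a b c d : ℕ), (∀ k ∈ S, ¬ root k) → a ≤ 1 → b ≤ 1 →
      c ≤ 2 → d ≤ 2 → ∑ k ∈ S, loc n u (k.1.1 + a - c) (k.1.2 + b - d) ≤ A n u := by
    intro S a b c d hS ha hb hc hd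
    refine sum_loc_le hP S (fun k => ((k.1.1 : ℕ) + a - c, (k.1.2 : ℕ) + b - d)) ?_ ?_
    · intro k hk
      have := rng k (hS k hk)
      show (k.1.1 : ℕ) + a - c ≤ n ∧ (k.1.2 : ℕ) + b - d ≤ n
      omega
    · refine inj S _ fun k hk k' hk' he => ?_
      have h1 := rng k (hS k hk)
      have h2 := rng k' (hS k' hk')
      simp only [Prod.mk.injEq] at he
      omega
  have v1 := key Sv 0 0 0 1 (fun k hk => (mv k hk).1) (by norm_num) (by norm_num) (by norm_num)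
    (by norm_num)
  have v2 := key Sv 0 0 0 2 (fun k hk => (mv k hk).1) (by norm_num) (by norm_num) (by norm_num)
    (by norm_num)
  have v3 := key Sv 1 0 0 2 (fun k hk => (mv k hk).1) (by norm_num) (by norm_num) (by norm_num)
    (by norm_num)
  have h1 := key Sh 0 0 1 0 (fun k hk => (mh k hk).1) (by norm_num) (by norm_num) (by norm_num)
    (by norm_num)
  have h2 := key Sh 0 0 2 0 (fun k hk => (mh k hk).1) (by norm_num) (by norm_num) (by norm_num)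
    (by norm_num)
  have h3 := key Sh 0 1 2 0 (fun k hk => (mh k hk).1) (by norm_num) (by norm_num) (by norm_num)
    (by norm_num)
  simp only [add_zero, Nat.sub_zero] at v1 v2 v3 h1 h2 h3
  have s1 := Finset.sum_le_sum hv
  have s2 := Finset.sum_le_sum hh
  rw [← Finset.mul_sum, Finset.sum_add_distrib, Finset.sum_add_distrib] at s1 s2
  linarith

end

end Pool.Agent.H23.CP
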