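import Pool.Agent.H31.CP.Base

/-!
Project CP, grid bound, part 1: second differences are bounded by the elongations; combinatorics
of the blocks.
-/

set_option autoImplicit false

open Real Set MeasureTheory Metric Filter Topology
open scoped ENNReal Nat ComplexConjugate

namespace Pool.Agent.H23.CP

open Pool.Agent.H96.CP

/-- the elongations of the edges based at `(i,j)` -/
noncomputable def loc (n : ℕ) (u : ℕ → ℕ → ℂ) (i j : ℕ) : ℝ :=
  (if i < n then D0 u i j else 0) + (if j < n then D1 u i j else 0) +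
    (if i < n ∧ j < n then D2 u i j else 0)

theorem loc_nonneg {n : ℕ} {u : ℕ → ℕ → ℂ} (hu : Pos n u) {i j : ℕ} (hi : i ≤ n) (hj : j ≤ n) :
    0 ≤ loc n u i j := by
  unfold loc
  have h0 : 0 ≤ (if i < n then D0 u i j else 0) := by
    split_ifs with h
    · exact hu.1 i j h hj
    · exact le_rfl
  have h1 : 0 ≤ (if j < n then D1 u i j else 0) := by
    split_ifs with h
    · exact hu.2.1 i j hi h
    · exact le_rfl
  have h2 : 0 ≤ (if i < n ∧ j < n then D2 u i j else 0) := by
    split_ifs with h
    · exact hu.2.2 i j h.1 h.2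
    · exact le_rfl
  linarith

theorem A_eq (n : ℕ) (u : ℕ → ℕ → ℂ) :
    A n u = ∑ q ∈ Finset.range (n + 1) ×ˢ Finset.range (n + 1), loc n u q.1 q.2 := by
  rw [Finset.sum_product]
  unfold A loc
  simp only [Finset.sum_add_distrib]
  congr 1
  · congr 1
    · rw [Finset.sum_range_succ]
      simp only [lt_irrefl, if_false, Finset.sum_const_zero, add_zero]
      refine Finset.sum_congr rfl fun i hi => ?_
      rw [Finset.mem_range] at hi
      simp [hi]
    · refine Finset.sum_congr rfl fun i _ => ?_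
      rw [Finset.sum_range_succ]
      simp only [lt_irrefl, if_false, add_zero]
      refine Finset.sum_congr rfl fun j hj => ?_
      rw [Finset.mem_range] at hj
      simp [hj]
  · rw [Finset.sum_range_succ]
    simp only [lt_irrefl, false_and, if_false, Finset.sum_const_zero, add_zero]
    refine Finset.sum_congr rfl fun i hi => ?_
    rw [Finset.mem_range] at hi
    rw [Finset.sum_range_succ]
    simp only [lt_irrefl, and_false, if_false, add_zero]
    refine Finset.sum_congr rfl fun j hj => ?_
    rw [Finset.mem_range] at hj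
    simp [hi, hj]

theorem sum_loc_le {n : ℕ} {u : ℕ → ℕ → ℂ} (hu : Pos n u) {κ : Type} (S : Finset κ)
    (f : κ → ℕ × ℕ) (hf : ∀ k ∈ S, (f k).1 ≤ n ∧ (f k).2 ≤ n) (hinj : Set.InjOn f S) :
    ∑ k ∈ S, loc n u (f k).1 (f k).2 ≤ A n u := by
  classical
  rw [A_eq, ← Finset.sum_image (f := fun q : ℕ × ℕ => loc n u q.1 q.2) hinj]
  refine Finset.sum_le_sum_of_subset_of_nonneg ?_ ?_
  · intro q hq
    obtain ⟨k, hk, rfl⟩ := Finset.mem_image.1 hq
    have := hf k hk
    simp only [Finset.mem_product, Finset.mem_range]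
    omega
  · intro q hq _
    simp only [Finset.mem_product, Finset.mem_range] at hq
    exact loc_nonneg hu (by omega) (by omega)

theorem D1_eq (u : ℕ → ℕ → ℂ) (i j : ℕ) :
    D1 u i j = 1 / 2 * (u i (j + 1) - u i j).re + √3 / 2 * (u i (j + 1) - u i j).im := by
  simp [D1, om]

theorem D2_eq (u : ℕ → ℕ → ℂ) (i j : ℕ) :
    D2 u i j = -(1 / 2) * (u i (j + 1) - u (i + 1) j).re +
      √3 / 2 * (u i (j + 1) - u (i + 1) j).im := by
  simp [D2, om]
  ring

theorem sqrt3_bd : (1 : ℝ) ≤ √3 := by
  rw [show (1 : ℝ) = √1 by simp]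
  exact Real.sqrt_le_sqrt (by norm_num)

/-- the horizontal second difference -/
theorem hor {n : ℕ} {u : ℕ → ℕ → ℂ} (hu : Pos n u) {i j : ℕ} (hi : i + 2 ≤ n) (hj : j + 1 ≤ n) :
    ‖u (i + 2) j - (2 * u (i + 1) j - u i j)‖ ≤
      8 * (loc n u (i + 1) j + loc n u i j + loc n u i (j + 1)) := by
  have e1 : loc n u (i + 1) j = D0 u (i + 1) j + D1 u (i + 1) j + D2 u (i + 1) j := by
    unfold loc
    rw [if_pos (by omega), if_pos (by omega), if_pos (by omega)]
  have e2 : loc n u i j = D0 u i j + D1 u i j + D2 u i j := by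
    unfold loc
    rw [if_pos (by omega), if_pos (by omega), if_pos (by omega)]
  have e3 : D0 u i (j + 1) ≤ loc n u i (j + 1) := by
    unfold loc
    rw [if_pos (by omega)]
    have h1 : 0 ≤ (if j + 1 < n then D1 u i (j + 1) else 0) := by
      split_ifs with h
      · exact hu.2.1 i (j + 1) (by omega) h
      · exact le_rfl
    have h2 : 0 ≤ (if i < n ∧ j + 1 < n then D2 u i (j + 1) else 0) := by
      split_ifs with h
      · exact hu.2.2 i (j + 1) h.1 h.2
      · exact le_rfl
    linarith
  have p1 := hu.1 (i + 1) j (by omega) (by omega)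
  have p2 := hu.1 i j (by omega) (by omega)
  have p3 := hu.1 i (j + 1) (by omega) (by omega)
  have p4 := hu.2.1 (i + 1) j (by omega) (by omega)
  have p5 := hu.2.1 i j (by omega) (by omega)
  have p6 := hu.2.2 (i + 1) j (by omega) (by omega)
  have p7 := hu.2.2 i j (by omega) (by omega)
  set z := u (i + 2) j - (2 * u (i + 1) j - u i j) with hz
  have r1 : z.re = D0 u (i + 1) j - D0 u i j := by
    simp [hz, D0]
    ring
  have r2 : √3 / 2 * z.im = D1 u (i + 1) j - D2 u (i + 1) j - D1 u i j + D2 u i j -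
      D0 u i (j + 1) + 1 / 2 * D0 u i j + 1 / 2 * D0 u (i + 1) j := by
    rw [D1_eq, D1_eq, D2_eq, D2_eq]
    simp [hz, D0]
    ring
  have h3 := sqrt3_bd
  have a1 : |z.re| ≤ D0 u (i + 1) j + D0 u i j := by
    rw [r1, abs_le]
    constructor <;> linarith
  have a2 : √3 / 2 * |z.im| ≤ D1 u (i + 1) j + D2 u (i + 1) j + D1 u i j + D2 u i j +
      D0 u i (j + 1) + 1 / 2 * D0 u i j + 1 / 2 * D0 u (i + 1) j := by
    rw [← abs_of_nonneg (show (0 : ℝ) ≤ √3 / 2 by positivity), ← abs_mul, r2, abs_le]
    constructor <;> linarith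
  have a3 : 1 / 2 * |z.im| ≤ √3 / 2 * |z.im| := by
    have := abs_nonneg z.im
    nlinarith
  have a4 := Complex.norm_le_abs_re_add_abs_im z
  rw [e1, e2]
  linarith

/-- the vertical second difference -/
theorem ver {n : ℕ} {u : ℕ → ℕ → ℂ} (hu : Pos n u) {i j : ℕ} (hi : i + 1 ≤ n) (hj : j + 2 ≤ n) :
    ‖u i (j + 2) - (2 * u i (j + 1) - u i j)‖ ≤
      8 * (loc n u i (j + 1) + loc n u i j + loc n u (i + 1) j) := by
  have e1 : loc n u i (j + 1) = D0 u i (j + 1) + D1 u i (j + 1) + D2 u i (j + 1) := by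
    unfold loc
    rw [if_pos (by omega), if_pos (by omega), if_pos (by omega)]
  have e2 : loc n u i j = D0 u i j + D1 u i j + D2 u i j := by
    unfold loc
    rw [if_pos (by omega), if_pos (by omega), if_pos (by omega)]
  have e3 : D1 u (i + 1) j ≤ loc n u (i + 1) j := by
    unfold loc
    rw [if_pos (show j < n by omega)]
    have h1 : 0 ≤ (if i + 1 < n then D0 u (i + 1) j else 0) := by
      split_ifs with h
      · exact hu.1 (i + 1) j (by omega) (by omega)
      · exact le_rfl
    have h2 : 0 ≤ (if i + 1 < n ∧ j < n then D2 u (i + 1) j else 0) := by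
      split_ifs with h
      · exact hu.2.2 (i + 1) j h.1 h.2
      · exact le_rfl
    linarith
  have p1 := hu.2.1 i (j + 1) (by omega) (by omega)
  have p2 := hu.2.1 i j (by omega) (by omega)
  have p3 := hu.2.1 (i + 1) j (by omega) (by omega)
  have p4 := hu.1 i (j + 1) (by omega) (by omega)
  have p5 := hu.1 i j (by omega) (by omega)
  have p6 := hu.2.2 i (j + 1) (by omega) (by omega)
  have p7 := hu.2.2 i j (by omega) (by omega)
  set z := u i (j + 2) - (2 * u i (j + 1) - u i j) with hz
  have r1 : 1 / 2 * z.re + √3 / 2 * z.im = D1 u i (j + 1) - D1 u i j := by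
    rw [D1_eq, D1_eq]
    simp [hz]
    ring
  have r2 : 3 / 2 * z.re - √3 / 2 * z.im = 2 * (D0 u i (j + 1) - D2 u i (j + 1) - D0 u i j +
      D2 u i j - D1 u (i + 1) j) + D1 u i j + D1 u i (j + 1) := by
    rw [D1_eq, D1_eq, D1_eq, D2_eq, D2_eq]
    simp [hz, D0]
    ring
  have h3 := sqrt3_bd
  set T := D0 u i (j + 1) + D2 u i (j + 1) + D0 u i j + D2 u i j + D1 u (i + 1) j + D1 u i j +
    D1 u i (j + 1) with hT
  have a1 : |z.re| ≤ T := by
    rw [abs_le]
    constructor <;> linarith
  have a2 : √3 / 2 * |z.im| ≤ 2 * T := by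
    rw [← abs_of_nonneg (show (0 : ℝ) ≤ √3 / 2 by positivity), ← abs_mul, abs_le]
    have := abs_le.1 a1
    constructor <;> linarith
  have a3 : 1 / 2 * |z.im| ≤ √3 / 2 * |z.im| := by
    have := abs_nonneg z.im
    nlinarith
  have a4 := Complex.norm_le_abs_re_add_abs_im z
  rw [e1, e2]
  linarith

/-! ## Interior sites -/

/-- `x` is strictly between the ends of a block -/
def inn (n m s x : ℕ) : Prop := ∃ t, t % (m + 1) = s ∧ t + (m + 1) ≤ n ∧ t < x ∧ x < t + (m + 1)

theorem inn_ne {n m s x : ℕ} (h : inn n m s x) : x % (m + 1) ≠ s := by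
  obtain ⟨t, ht, _, h1, h2⟩ := h
  intro h3
  have h4 : t ≡ x [MOD (m + 1)] := by
    unfold Nat.ModEq
    omega
  have h5 := (Nat.modEq_iff_dvd' h1.le).1 h4
  have := Nat.le_of_dvd (by omega) h5
  omega

/-- the number of the exceptional columns -/
theorem card_not_inn {n m s : ℕ} (hs : s ≤ m) :
    ∃ J : Finset ℕ, (∀ x, x ≤ n → ¬ inn n m s x → x ∈ J) ∧
      J.card ≤ (n + 1) / (m + 1) + 2 * m + 4 := by
  classical
  refine ⟨(Finset.range (s + 1)) ∪ (((Finset.range (n + 1)).filter fun x => x % (m + 1) = s) ∪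
    Finset.Ioc (n - (m + 1)) n), ?_, ?_⟩
  · intro x hx hn
    simp only [Finset.mem_union, Finset.mem_range, Finset.mem_filter, Finset.mem_Ioc]
    by_contra hcon
    push_neg at hcon
    obtain ⟨h1, h2, h3⟩ := hcon
    have h2' := h2 (by omega)
    have h3' : x ≤ n - (m + 1) := by
      by_contra h
      push_neg at h
      have := h3 h
      omega
    apply hn
    -- the left end of the block
    have hR : 0 < m + 1 := by omega
    set d := (x - s) % (m + 1) with hd
    have hd1 : d < m + 1 := Nat.mod_lt _ hR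
    have hd2 : d ≤ x - s := Nat.mod_le _ _
    have hd3 : (m + 1) * ((x - s) / (m + 1)) + d = x - s := Nat.div_add_mod _ _
    have hsm : s % (m + 1) = s := Nat.mod_eq_of_lt (by omega)
    have hd0 : d ≠ 0 := by
      intro h0
      apply h2'
      have : x = s + (m + 1) * ((x - s) / (m + 1)) := by omega
      rw [this, Nat.add_mul_mod_self_left, hsm]
    refine ⟨x - d, ?_, by omega, by omega, by omega⟩
    have : x - d = s + (m + 1) * ((x - s) / (m + 1)) := by omega
    rw [this, Nat.add_mul_mod_self_left, hsm]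
  · refine (Finset.card_union_le _ _).trans ?_
    rw [Finset.card_range]
    have h1 := Finset.card_union_le ((Finset.range (n + 1)).filter fun x => x % (m + 1) = s)
      (Finset.Ioc (n - (m + 1)) n)
    rw [Nat.card_Ioc] at h1
    have h2 : ((Finset.range (n + 1)).filter fun x => x % (m + 1) = s).card ≤
        (n + 1) / (m + 1) + 1 := by
      rw [← Finset.card_range ((n + 1) / (m + 1) + 1)]
      refine Finset.card_le_card_of_injOn (fun x => x / (m + 1)) ?_ ?_
      · intro x hx
        simp only [Finset.coe_filter, Finset.mem_range, Set.mem_setOf_eq] at hx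
        simp only [Finset.coe_range, Set.mem_Iio]
        have : x / (m + 1) ≤ (n + 1) / (m + 1) := Nat.div_le_div_right (by omega)
        omega
      · intro x hx y hy hxy
        simp only [Finset.coe_filter, Finset.mem_range, Set.mem_setOf_eq] at hx hy
        simp only at hxy
        have h1 := Nat.div_add_mod x (m + 1)
        have h2 := Nat.div_add_mod y (m + 1)
        rw [hx.2] at h1
        rw [hy.2] at h2
        rw [← h1, ← h2, hxy]
    omega

end Pool.Agent.H23.CP
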