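import Pool.Agent.H23.CP.Grid

/-!
Project CP, grid bound (`S_grid`): the integrals.
-/

set_option autoImplicit false

open Real Set MeasureTheory Metric Filter Topology
open scoped ENNReal Nat ComplexConjugate

namespace Pool.Agent.H23.CP

open Pool.Agent.H96.CP

/-! ## Measurability -/

theorem measurableSet_Pos {X : Type} [MeasurableSpace X] (N : ℕ) (f : X → ℕ → ℕ → ℂ)
    (hf : ∀ i j, Measurable fun x => f x i j) : MeasurableSet {x | Pos N (f x)} := by
  have h0 : ∀ i j, Measurable fun x => D0 (f x) i j := fun i j =>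
    Complex.measurable_re.comp ((hf _ _).sub (hf _ _))
  have h1 : ∀ i j, Measurable fun x => D1 (f x) i j := fun i j =>
    Complex.measurable_re.comp (measurable_const.mul ((hf _ _).sub (hf _ _)))
  have h2 : ∀ i j, Measurable fun x => D2 (f x) i j := fun i j =>
    Complex.measurable_re.comp (measurable_const.mul ((hf _ _).sub (hf _ _)))
  have e : {x | Pos N (f x)} =
      (⋂ i, ⋂ j, ⋂ (_ : i < N), ⋂ (_ : j ≤ N), {x | 0 ≤ D0 (f x) i j}) ∩
      ((⋂ i, ⋂ j, ⋂ (_ : i ≤ N), ⋂ (_ : j < N), {x | 0 ≤ D1 (f x) i j}) ∩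
      (⋂ i, ⋂ j, ⋂ (_ : i < N), ⋂ (_ : j < N), {x | 0 ≤ D2 (f x) i j})) := by
    ext x
    simp [Pos]
  rw [e]
  refine MeasurableSet.inter ?_ (MeasurableSet.inter ?_ ?_)
  · exact MeasurableSet.iInter fun i => MeasurableSet.iInter fun j => MeasurableSet.iInter fun _ =>
      MeasurableSet.iInter fun _ => measurableSet_le measurable_const (h0 i j)
  · exact MeasurableSet.iInter fun i => MeasurableSet.iInter fun j => MeasurableSet.iInter fun _ =>
      MeasurableSet.iInter fun _ => measurableSet_le measurable_const (h1 i j)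
  · exact MeasurableSet.iInter fun i => MeasurableSet.iInter fun j => MeasurableSet.iInter fun _ =>
      MeasurableSet.iInter fun _ => measurableSet_le measurable_const (h2 i j)

theorem measurable_ext (n : ℕ) (i j : ℕ) :
    Measurable fun u : Fin (n + 1) × Fin (n + 1) → ℂ => Pool.Agent.H96.CP.ext n u i j := by
  unfold Pool.Agent.H96.CP.ext
  split_ifs
  · exact measurable_pi_apply _
  · exact measurable_const

theorem measurableSet_U (n : ℕ) (r : ℝ) : MeasurableSet (U n r) := by
  have e : U n r = {u | Pos n (Pool.Agent.H96.CP.ext n u)} ∩ ⋂ q, {u | ‖u q‖ ≤ r} := by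
    ext u
    simp [U]
  rw [e]
  refine MeasurableSet.inter (measurableSet_Pos n _ (measurable_ext n)) ?_
  exact MeasurableSet.iInter fun q => measurableSet_le (measurable_pi_apply q).norm measurable_const

theorem measurable_A (n : ℕ) :
    Measurable fun u : Fin (n + 1) × Fin (n + 1) → ℂ => A n (Pool.Agent.H96.CP.ext n u) := by
  have hf := measurable_ext n
  unfold A
  refine ((Finset.measurable_sum _ fun i _ => Finset.measurable_sum _ fun j _ => ?_).add
    (Finset.measurable_sum _ fun i _ => Finset.measurable_sum _ fun j _ => ?_)).add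
    (Finset.measurable_sum _ fun i _ => Finset.measurable_sum _ fun j _ => ?_)
  · exact Complex.measurable_re.comp ((hf _ _).sub (hf _ _))
  · exact Complex.measurable_re.comp (measurable_const.mul ((hf _ _).sub (hf _ _)))
  · exact Complex.measurable_re.comp (measurable_const.mul ((hf _ _).sub (hf _ _)))

theorem measurable_vb (n m : ℕ) (t : ℕ × ℕ) :
    Measurable fun u : Fin (n + 1) × Fin (n + 1) → ℂ =>
      vb m (sh (Pool.Agent.H96.CP.ext n u) t) := by
  have hs : MeasurableSet {x : (Fin (n + 1) × Fin (n + 1) → ℂ) × (Fin m × Fin m → ℂ) |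
      Pos (m + 1) (glue m (sh (Pool.Agent.H96.CP.ext n x.1) t) x.2)} := by
    refine measurableSet_Pos (m + 1) _ fun i j => ?_
    unfold glue
    split_ifs
    · exact (measurable_pi_apply _).comp measurable_snd
    · exact (measurable_ext n _ _).comp measurable_fst
  exact measurable_measure_prodMk_left hs

theorem measurableSet_Kb (m : ℕ) (b : ℕ → ℕ → ℂ) : MeasurableSet (Kb m b) := by
  refine measurableSet_Pos (m + 1) (fun w : Fin m × Fin m → ℂ => glue m b w) fun i j => ?_
  unfold glue
  split_ifs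
  · exact measurable_pi_apply _
  · exact measurable_const

/-! ## One dimensional integrals -/

theorem lintegral_ball {r : ℝ} (hr : 0 ≤ r) :
    ∫⁻ z : ℂ, (closedBall (0 : ℂ) r).indicator 1 z = ENNReal.ofReal (π * r ^ 2) := by
  rw [lintegral_indicator_one measurableSet_closedBall, Complex.volume_closedBall,
    mul_comm π, ENNReal.ofReal_mul (by positivity), ENNReal.ofReal_pow hr]
  congr 1
  rw [← NNReal.coe_real_pi, ENNReal.ofReal_coe_nnreal]

theorem lintegral_exp {b : ℝ} (hb : 0 < b) :
    ∫⁻ z : ℂ, ENNReal.ofReal (Real.exp (-b * ‖z‖)) = ENNReal.ofReal (2 * π / b ^ 2) := by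
  have h1 := Pool.Agent.H96.HD.integral_exp_norm hb
  rw [← h1, ofReal_integral_eq_lintegral_ofReal]
  · by_contra hcon
    rw [integral_undef hcon] at h1
    have : 0 < 2 * π / b ^ 2 := by positivity
    linarith
  · exact Filter.Eventually.of_forall fun z => (Real.exp_pos _).le

/-! ## Cardinalities -/

open Classical in
theorem card_root (n m s₁ s₂ : ℕ) :
    (Finset.univ.filter fun k : Ga n m s₁ s₂ => root k).card ≤ 8 * (n + 1) := by
  have h1 : (Finset.univ.filter fun k : Ga n m s₁ s₂ => root k).card ≤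
      ((({0, 1, n} : Finset ℕ) ×ˢ Finset.range (n + 1)) ∪
        (Finset.range (n + 1) ×ˢ ({0, 1, n} : Finset ℕ))).card := by
    refine Finset.card_le_card_of_injOn (fun k => ((k.1.1 : ℕ), (k.1.2 : ℕ))) ?_ ?_
    · intro k hk
      have hk' : root k := (Finset.mem_filter.1 hk).2
      unfold root at hk'
      have h1 := k.1.1.2
      have h2 := k.1.2.2
      simp only [Finset.coe_union, Finset.coe_product, Set.mem_union, Set.mem_prod,
        Finset.mem_coe, Finset.mem_insert, Finset.mem_singleton, Finset.mem_range]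
      omega
    · intro k _ k' _ he
      simp only [Prod.mk.injEq] at he
      exact Subtype.ext (Prod.ext (Fin.ext he.1) (Fin.ext he.2))
  refine h1.trans ((Finset.card_union_le _ _).trans ?_)
  rw [Finset.card_product, Finset.card_product, Finset.card_range]
  have h3 : ({0, 1, n} : Finset ℕ).card ≤ 3 := Finset.card_le_three
  nlinarith

open Classical in
theorem card_nonroot {n m s₁ s₂ : ℕ} (h1 : s₁ ≤ m) (h2 : s₂ ≤ m) :
    (Finset.univ.filter fun k : Ga n m s₁ s₂ => ¬ root k).card ≤
      2 * (n + 1) * ((n + 1) / (m + 1) + 2 * m + 4) := by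
  obtain ⟨J1, a1, b1⟩ := card_not_inn (n := n) h1
  obtain ⟨J2, a2, b2⟩ := card_not_inn (n := n) h2
  have h1 : (Finset.univ.filter fun k : Ga n m s₁ s₂ => ¬ root k).card ≤
      ((J1 ×ˢ Finset.range (n + 1)) ∪ (Finset.range (n + 1) ×ˢ J2)).card := by
    refine Finset.card_le_card_of_injOn (fun k => ((k.1.1 : ℕ), (k.1.2 : ℕ))) ?_ ?_
    · intro k _
      have h1 := k.1.1.2
      have h2 := k.1.2.2
      simp only [Finset.coe_union, Finset.coe_product, Set.mem_union, Set.mem_prod,
        Finset.mem_coe, Finset.mem_range]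
      by_cases h3 : inn n m s₁ k.1.1
      · by_cases h4 : inn n m s₂ k.1.2
        · exact absurd ⟨h3, h4⟩ k.2
        · exact Or.inr ⟨h1, a2 _ (by omega) h4⟩
      · exact Or.inl ⟨a1 _ (by omega) h3, h2⟩
    · intro k _ k' _ he
      simp only [Prod.mk.injEq] at he
      exact Subtype.ext (Prod.ext (Fin.ext he.1) (Fin.ext he.2))
  refine h1.trans ((Finset.card_union_le _ _).trans ?_)
  rw [Finset.card_product, Finset.card_product, Finset.card_range]
  nlinarith

/-! ## The theorem -/

theorem div_mul_le (a b : ℝ≥0∞) : a / b * b ≤ a := by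
  rw [div_eq_mul_inv, mul_assoc]
  calc a * (b⁻¹ * b) ≤ a * 1 := by
        gcongr
        rw [mul_comm]
        exact ENNReal.mul_inv_le_one b
    _ = a := mul_one a

theorem t_grid : S_grid := by
  have hC : (1 : ℝ) ≤ 2 * π * 48 ^ 2 := by nlinarith [Real.pi_gt_three]
  refine ⟨2 * π * 48 ^ 2, hC, fun n m s₁ s₂ r θ hm hn hs1 hs2 hr hθ hθ1 => ?_⟩
  classical
  set F : (Fin (n + 1) × Fin (n + 1) → ℂ) → ℝ≥0∞ := (U n r).indicator fun u =>
    ENNReal.ofReal (Real.exp (-(θ * A n (Pool.Agent.H96.CP.ext n u)))) /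
      ∏ t ∈ Tp n m s₁ s₂, vb m (sh (Pool.Agent.H96.CP.ext n u) t) with hFdef
  have hF : Measurable F := by
    refine Measurable.indicator ?_ (measurableSet_U n r)
    refine Measurable.div ?_ ?_
    · exact ENNReal.measurable_ofReal.comp
        (Real.measurable_exp.comp ((measurable_const.mul (measurable_A n)).neg))
    · exact Finset.measurable_prod _ fun t _ => measurable_vb n m t
  rw [← lintegral_indicator (measurableSet_U n r)]
  -- the majorants
  set hh : Ga n m s₁ s₂ → ℂ → ℝ≥0∞ := fun k => if root k then (closedBall (0 : ℂ) r).indicator 1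
    else fun z => ENNReal.ofReal (Real.exp (-(θ / 48) * ‖z‖)) with hhdef
  have hhm : ∀ k, Measurable (hh k) := by
    intro k
    rw [hhdef]
    by_cases hk : root k
    · simp only [if_pos hk]
      exact measurable_one.indicator measurableSet_closedBall
    · simp only [if_neg hk]
      exact ENNReal.measurable_ofReal.comp
        (Real.measurable_exp.comp (measurable_const.mul measurable_norm))
  have hHm : Measurable fun y : Ga n m s₁ s₂ → ℂ => ∏ k, hh k (y k) :=
    Finset.measurable_prod _ fun k _ => (hhm k).comp (measurable_pi_apply k)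
  -- the pointwise bound
  have hpt : ∀ (g : Ga n m s₁ s₂ → ℂ) (w : Al n m s₁ s₂ → Fin m × Fin m → ℂ),
      F (comb (ee n m s₁ s₂) g w) ≤ ((∏ k, hh k ((g - pm n m s₁ s₂ g) k)) /
        ∏ t ∈ Tp n m s₁ s₂, vb m (sh (Pool.Agent.H96.CP.ext n (comb (ee n m s₁ s₂) g 0)) t)) *
        ∏ t : Al n m s₁ s₂, (Kb m (sh (Pool.Agent.H96.CP.ext n
          (comb (ee n m s₁ s₂) g 0)) t.1)).indicator 1 (w t) := by
    intro g w
    by_cases hu : comb (ee n m s₁ s₂) g w ∈ U n r
    · rw [hFdef, indicator_of_mem hu]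
      have e1 : ∏ t : Al n m s₁ s₂, (Kb m (sh (Pool.Agent.H96.CP.ext n
          (comb (ee n m s₁ s₂) g 0)) t.1)).indicator (1 : (Fin m × Fin m → ℂ) → ℝ≥0∞) (w t) = 1 := by
        refine Finset.prod_eq_one fun t _ => ?_
        rw [indicator_of_mem]
        · rfl
        · rw [Kb_indep g 0 w t.2]
          show Pos (m + 1) (glue m (sh (Pool.Agent.H96.CP.ext n
            (comb (ee n m s₁ s₂) g w)) t.1) (w t))
          rw [glue_self]
          have ht := mem_Tp t.2
          exact Pos_sh hu.1 ht.2.2.1 ht.2.2.2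
      have e2 : ∏ t ∈ Tp n m s₁ s₂, vb m (sh (Pool.Agent.H96.CP.ext n
            (comb (ee n m s₁ s₂) g w)) t) =
          ∏ t ∈ Tp n m s₁ s₂, vb m (sh (Pool.Agent.H96.CP.ext n
            (comb (ee n m s₁ s₂) g 0)) t) := by
        refine Finset.prod_congr rfl fun t ht => ?_
        unfold vb
        rw [Kb_indep g w 0 ht]
      rw [e1, mul_one, e2]
      refine ENNReal.div_le_div_right ?_ _
      have e3 : ∏ k, hh k ((g - pm n m s₁ s₂ g) k) = ENNReal.ofReal (Real.exp (-(θ / 48) *
          ∑ k ∈ Finset.univ.filter (fun k : Ga n m s₁ s₂ => ¬ root k),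
            ‖(g - pm n m s₁ s₂ g) k‖)) := by
        rw [Finset.mul_sum, Real.exp_sum, ENNReal.ofReal_prod_of_nonneg
          (fun k _ => (Real.exp_pos _).le), Finset.prod_filter]
        refine Finset.prod_congr rfl fun k _ => ?_
        rw [hhdef]
        by_cases hk : root k
        · rw [if_neg (not_not_intro hk)]
          simp only [if_pos hk]
          rw [indicator_of_mem]
          · rfl
          · rw [mem_closedBall, dist_zero_right]
            exact err_root g w hu hk
        · rw [if_pos hk]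
          simp only [if_neg hk]
      rw [e3]
      refine ENNReal.ofReal_le_ofReal (Real.exp_le_exp.2 ?_)
      have h1 := err_sum g w hu
      have h2 : θ / 48 * ∑ k ∈ Finset.univ.filter (fun k : Ga n m s₁ s₂ => ¬ root k),
          ‖(g - pm n m s₁ s₂ g) k‖ ≤ θ / 48 * (48 * A n (Pool.Agent.H96.CP.ext n
            (comb (ee n m s₁ s₂) g w))) := by gcongr
      linarith
    · rw [hFdef, indicator_of_notMem hu]
      exact zero_le
  calc ∫⁻ u, F u = ∫⁻ g : Ga n m s₁ s₂ → ℂ, ∫⁻ w : Al n m s₁ s₂ → Fin m × Fin m → ℂ,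
        F (comb (ee n m s₁ s₂) g w) :=
        Pool.Agent.H31.CP.comb_thm _ _ _ _ (ee n m s₁ s₂) F hF
    _ ≤ ∫⁻ g : Ga n m s₁ s₂ → ℂ, ∏ k, hh k ((g - pm n m s₁ s₂ g) k) := by
        refine lintegral_mono fun g => ?_
        refine (lintegral_mono (hpt g)).trans ?_
        have hm1 : ∀ t : Al n m s₁ s₂, Measurable ((Kb m (sh (Pool.Agent.H96.CP.ext n
          (comb (ee n m s₁ s₂) g 0)) t.1)).indicator (1 : (Fin m × Fin m → ℂ) → ℝ≥0∞)) :=
          fun t => measurable_one.indicator (measurableSet_Kb m _)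
        have hm2 : Measurable fun w : Al n m s₁ s₂ → Fin m × Fin m → ℂ =>
            ∏ t : Al n m s₁ s₂, (Kb m (sh (Pool.Agent.H96.CP.ext n
              (comb (ee n m s₁ s₂) g 0)) t.1)).indicator (1 : (Fin m × Fin m → ℂ) → ℝ≥0∞) (w t) :=
          Finset.measurable_prod _ fun t _ => (hm1 t).comp (measurable_pi_apply t)
        rw [lintegral_const_mul _ hm2]
        rw [Pool.Agent.H31.CP.prod_thm _ _ (fun t : Al n m s₁ s₂ =>
          (Kb m (sh (Pool.Agent.H96.CP.ext n
          (comb (ee n m s₁ s₂) g 0)) t.1)).indicator (1 : (Fin m × Fin m → ℂ) → ℝ≥0∞)) hm1]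
        have e4 : ∏ t : Al n m s₁ s₂, ∫⁻ y, (Kb m (sh (Pool.Agent.H96.CP.ext n
            (comb (ee n m s₁ s₂) g 0)) t.1)).indicator (1 : (Fin m × Fin m → ℂ) → ℝ≥0∞) y =
            ∏ t ∈ Tp n m s₁ s₂, vb m (sh (Pool.Agent.H96.CP.ext n
              (comb (ee n m s₁ s₂) g 0)) t) := by
          refine Eq.trans ?_ (Finset.prod_coe_sort (Tp n m s₁ s₂) (fun t =>
            vb m (sh (Pool.Agent.H96.CP.ext n (comb (ee n m s₁ s₂) g 0)) t)))
          refine Finset.prod_congr rfl fun t _ => ?_
          rw [lintegral_indicator_one (measurableSet_Kb m _)]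
          rfl
        rw [e4]
        exact div_mul_le _ _
    _ = ∫⁻ y : Ga n m s₁ s₂ → ℂ, ∏ k, hh k (y k) :=
        Pool.Agent.H31.CP.pred_thm _ (pm n m s₁ s₂) (fun k => (k.1.1 : ℕ) + k.1.2) pm_rank
          (fun y => ∏ k, hh k (y k)) hHm
    _ = ∏ k, ∫⁻ z, hh k z :=
        Pool.Agent.H31.CP.lintegral_fintype_prod (μ := (volume : Measure ℂ)) hh hhm
    _ = ENNReal.ofReal (π * r ^ 2) ^ (Finset.univ.filter fun k : Ga n m s₁ s₂ => root k).card *
        ENNReal.ofReal (2 * π * 48 ^ 2 / θ ^ 2) ^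
          (Finset.univ.filter fun k : Ga n m s₁ s₂ => ¬ root k).card := by
        rw [← Finset.prod_filter_mul_prod_filter_not Finset.univ
          (fun k : Ga n m s₁ s₂ => root k)]
        congr 1
        · rw [← Finset.prod_const]
          refine Finset.prod_congr rfl fun k hk => ?_
          have hk' := (Finset.mem_filter.1 hk).2
          rw [hhdef]
          simp only [if_pos hk']
          exact lintegral_ball (by linarith)
        · rw [← Finset.prod_const]
          refine Finset.prod_congr rfl fun k hk => ?_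
          have hk' := (Finset.mem_filter.1 hk).2
          rw [hhdef]
          simp only [if_neg hk']
          rw [lintegral_exp (show 0 < θ / 48 by positivity)]
          congr 1
          field_simp
    _ ≤ ENNReal.ofReal (2 * π * 48 ^ 2 * r ^ 2) ^ (8 * (n + 1)) *
        ENNReal.ofReal (2 * π * 48 ^ 2 / θ ^ 2) ^
          (2 * (n + 1) * ((n + 1) / (m + 1) + 2 * m + 4)) := by
        have c1 : (1 : ℝ≥0∞) ≤ ENNReal.ofReal (2 * π * 48 ^ 2 * r ^ 2) := by
          rw [← ENNReal.ofReal_one]
          refine ENNReal.ofReal_le_ofReal ?_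
          nlinarith
        have c2 : (1 : ℝ≥0∞) ≤ ENNReal.ofReal (2 * π * 48 ^ 2 / θ ^ 2) := by
          rw [← ENNReal.ofReal_one]
          refine ENNReal.ofReal_le_ofReal ?_
          rw [le_div_iff₀ (by positivity)]
          nlinarith
        refine mul_le_mul' ?_ ?_
        · refine le_trans (pow_le_pow_left' (ENNReal.ofReal_le_ofReal ?_) _)
            (pow_le_pow_right' c1 (card_root n m s₁ s₂))
          nlinarith [Real.pi_gt_three, sq_nonneg r, mul_nonneg Real.pi_pos.le (sq_nonneg r)]
        · exact pow_le_pow_right' c2 (card_nonroot hs1 hs2)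
    _ = ENNReal.ofReal ((2 * π * 48 ^ 2 * r ^ 2) ^ (8 * (n + 1)) *
        (2 * π * 48 ^ 2 / θ ^ 2) ^ (2 * (n + 1) * ((n + 1) / (m + 1) + 2 * m + 4))) := by
        have q1 := ENNReal.ofReal_pow (show 0 ≤ 2 * π * 48 ^ 2 * r ^ 2 by positivity)
          (8 * (n + 1))
        have q2 := ENNReal.ofReal_pow (show 0 ≤ 2 * π * 48 ^ 2 / θ ^ 2 by positivity)
          (2 * (n + 1) * ((n + 1) / (m + 1) + 2 * m + 4))
        rw [ENNReal.ofReal_mul (show 0 ≤ (2 * π * 48 ^ 2 * r ^ 2) ^ (8 * (n + 1)) by positivity),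
          q1, q2]

end Pool.Agent.H23.CP
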